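import Pool.Agent.helper10.QT.SpecX

/-!
# AT, row PSY: the relation `Pair` is symmetric and irreflexive
-/

set_option autoImplicit false

namespace Pool.Agent.AT

open Finset Pool.Agent.helper85.FC

theorem PSY_symm {a b : ℕ} {c : ℤ} (h : TrueCase a b c) : TrueCase b a (-c) := by
  obtain ⟨ha, hb, hc, hab, hac, hbc, hodd, hinf⟩ := h
  refine ⟨hb, ha, neg_ne_zero.2 hc, hab.symm, hbc.neg_right, hac.neg_right, ?_, ?_⟩
  · rintro ⟨h1, h2, h3⟩
    exact hodd ⟨h2, h1, by simpa using h3⟩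
  · have h1 := hinf.image (f := Prod.swap) (Prod.swap_injective.injOn)
    refine h1.mono ?_
    rintro _ ⟨⟨p, q⟩, ⟨hp, hq, hpq⟩, rfl⟩
    refine ⟨hq, hp, ?_⟩
    simp only [Prod.fst_swap, Prod.snd_swap] at hpq ⊢
    linarith

theorem PSY : PSY_stmt := by
  constructor
  · intro f g h
    unfold Pair at h ⊢
    have h1 := PSY_symm h
    rw [Nat.gcd_comm g.1 f.1]
    have hd : ((Nat.gcd f.1 g.1 : ℕ) : ℤ) ∣ (g.1 : ℤ) * f.2 - f.1 * g.2 := by
      refine dvd_sub ?_ ?_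
      · exact (Int.natCast_dvd_natCast.2 (Nat.gcd_dvd_right f.1 g.1)).mul_right _
      · exact (Int.natCast_dvd_natCast.2 (Nat.gcd_dvd_left f.1 g.1)).mul_right _
    have h2 : ((f.1 : ℤ) * g.2 - g.1 * f.2) / Nat.gcd f.1 g.1 =
        -(((g.1 : ℤ) * f.2 - f.1 * g.2) / Nat.gcd f.1 g.1) := by
      rw [← Int.neg_ediv_of_dvd hd]
      congr 1
      ring
    rw [h2]
    exact h1
  · intro f h
    apply h.2.2.1
    rw [sub_self, Int.zero_ediv]

end Pool.Agent.AT
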