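import Pool.Agent.helper10.QT.SpecW
import Pool.Agent.helper18.AT.GQN

/-! Project AT (MP_bf63dc_nt), row GRN: the ladder for shifted primes with three factors. -/

set_option autoImplicit false

namespace Pool.Agent.AT

open Finset Pool.Agent.helper85.FC

theorem GRN (h1 : GQL_stmt) (h2 : GQK_stmt) : GRN_stmt := by
  classical
  intro hB hR
  obtain ⟨K, hK⟩ := hR
  choose C δ hC hδ h using GQN_one h1 h2 hB
  refine ⟨C, δ, fun k => ⟨hC k, hδ k⟩, fun c hc => ?_⟩
  rcases hK c hc with ⟨H, hH, hidx, hgood, hprod, -⟩ | h5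
  · refine Or.inl ⟨H, H.relIndex (Gc c), hH, hidx, rfl, hgood, hprod, ?_⟩
    intro k hk F L hL hF hFH
    exact h k hk c hc H _ hH hidx rfl hgood F L hL hF hFH
  · exact Or.inr h5

end Pool.Agent.AT
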