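import Pool.Agent.helper10.QT.SpecW
import Pool.Agent.helper48.AT.GQM

/-! Project AT (MP_bf63dc_nt), row GRM: from four clusters to three factors. -/

set_option autoImplicit false

namespace Pool.Agent.AT

open Finset Pool.Agent.helper85.FC

open scoped Pointwise

theorem GRM_inf (c : ℤ) (hc : c ≠ 0) : Infinite (Gc c) := by
  have hc' : 0 < c.natAbs := Int.natAbs_pos.mpr hc
  have hne : ∀ n : ℕ, ((1 + c.natAbs * n : ℕ) : ℚ) ≠ 0 := fun n => by
    have : (1 + c.natAbs * n : ℕ) ≠ 0 := by omega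
    exact_mod_cast this
  have hmem : ∀ n : ℕ, Units.mk0 ((1 + c.natAbs * n : ℕ) : ℚ) (hne n) ∈ Gc c := by
    intro n
    show PrTo c ((Units.mk0 ((1 + c.natAbs * n : ℕ) : ℚ) (hne n) : ℚˣ) : ℚ)
    rw [Units.val_mk0]
    refine ⟨lt_of_le_of_ne (Nat.cast_nonneg _) (hne n).symm, fun p hp hpc => ?_⟩
    rw [padicValRat.of_nat]
    have h1 : p ∣ c.natAbs := Int.natCast_dvd.mp hpc
    have h2 : ¬ p ∣ 1 + c.natAbs * n := by
      intro h
      have h3 : p ∣ 1 := (Nat.dvd_add_left (dvd_mul_of_dvd_left h1 n)).mp h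
      exact hp.one_lt.ne' (Nat.dvd_one.mp h3)
    rw [padicValNat.eq_zero_of_not_dvd h2]
    rfl
  refine Infinite.of_injective (fun n : ℕ => (⟨_, hmem n⟩ : Gc c)) ?_
  intro a b hab
  have h1 := congrArg (fun z : Gc c => ((z : ℚˣ) : ℚ)) hab
  simp only [Units.val_mk0] at h1
  have h2 : 1 + c.natAbs * a = 1 + c.natAbs * b := by exact_mod_cast h1
  exact Nat.eq_of_mul_eq_mul_left hc' (by omega)

theorem GRM (h1 : GRC_stmt) (h2 : GRB_stmt) (h3 : GQ1_stmt) : GRM_stmt := by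
  intro K c hc hX
  obtain ⟨hone, hinv, -⟩ := h3
  have hinf := GRM_inf c hc
  let S : Set (Gc c) := {x | GoodR c (((x : Gc c) : ℚˣ) : ℚ)}
  have hSi : ∀ x ∈ S, x⁻¹ ∈ S := by
    intro x hx'
    show GoodR c (((x⁻¹ : Gc c) : ℚˣ) : ℚ)
    have h := hinv c _ (Units.ne_zero ((x : Gc c) : ℚˣ)) hx'
    rw [InvMemClass.coe_inv, Units.val_inv_eq_inv_val]
    exact h
  have hcl : ∀ X : Fin 4 → Finset (Gc c), (∀ i, K ≤ #(X i)) →
      ∃ i j, i ≠ j ∧ ∃ x ∈ X i, ∃ y ∈ X j, x / y ∈ S := by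
    intro Z hZ
    obtain ⟨i, j, hij, x, hxi, y, hyj, hg⟩ := hX (fun i => (Z i).map ⟨Subtype.val, Subtype.val_injective⟩)
      (fun i => by rw [Finset.card_map]; exact hZ i)
      (by
        intro i x hx'
        obtain ⟨y, _, rfl⟩ := Finset.mem_map.1 hx'
        exact y.2)
    obtain ⟨x', hx'Z, rfl⟩ := Finset.mem_map.1 hxi
    obtain ⟨y', hy'Z, rfl⟩ := Finset.mem_map.1 hyj
    exact ⟨i, j, hij, x', hx'Z, y', hy'Z, hg⟩
  rcases h1 S K hSi hcl with ⟨H, hidx, hSH, hHS⟩ | hall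
  · left
    refine ⟨H.map (Gc c).subtype, ?_, ?_, ?_, ?_, ?_⟩
    · rintro _ ⟨x, _, rfl⟩
      exact x.2
    · have hi : (H.map (Gc c).subtype).relIndex (Gc c) = H.index := by
        rw [Subgroup.relIndex, Subgroup.subgroupOf,
          Subgroup.comap_map_eq_self_of_injective (Gc c).subtype_injective]
      rw [hi]
      exact hidx
    · intro x hx' hg
      exact ⟨⟨x, hx'⟩, hSH _ hg, rfl⟩
    · rintro _ ⟨x, hxH, rfl⟩
      have hx2 : x ∈ S ^ 2 := by
        rw [← hHS]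
        exact hxH
      rw [sq, Set.mem_mul] at hx2
      obtain ⟨y, hy, z, hz, e⟩ := hx2
      exact ⟨y, y.2, z, z.2, hy, hz, by rw [← e]; rfl⟩
    · intro X Y hXK hYK hXH hYH
      have hXG : ∀ x ∈ X, x ∈ Gc c := by
        intro x hx'
        obtain ⟨y, _, rfl⟩ := hXH x hx'
        exact y.2
      have hYG : ∀ x ∈ Y, x ∈ Gc c := by
        intro x hx'
        obtain ⟨y, _, rfl⟩ := hYH x hx'
        exact y.2
      obtain ⟨X', hX'c, hX'⟩ := GQM_lift c X hXG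
      obtain ⟨Y', hY'c, hY'⟩ := GQM_lift c Y hYG
      have hne : H ≠ ⊤ := by
        rintro rfl
        rw [Subgroup.index_top] at hidx
        omega
      have hmem : ∀ x : Gc c, ((x : Gc c) : ℚˣ) ∈ H.map (Gc c).subtype → x ∈ H := by
        rintro x ⟨y, hyH, e⟩
        have : y = x := Subtype.ext e
        rw [← this]
        exact hyH
      obtain ⟨x, hxX, y, hyY, hg⟩ := h2 S K H hSi hSH hne hcl X' Y' (by rw [hX'c]; exact hXK)
        (by rw [hY'c]; exact hYK) (fun x hx' => hmem x (hXH _ (hX' x hx')))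
        (fun y hy' => hmem y (hYH _ (hY' y hy')))
      exact ⟨x, hX' x hxX, y, hY' y hyY, hg⟩
  · right
    intro x hx'
    obtain ⟨f, hf⟩ := Set.mem_pow.1 (hall ⟨x, hx'⟩)
    rw [List.prod_ofFn] at hf
    refine ⟨fun i => ((f i : Gc c) : ℚˣ), fun i => ⟨(f i : Gc c).2, (f i).2⟩, ?_⟩
    have h := congrArg (fun z : Gc c => (z : ℚˣ)) hf
    simp only [Subgroup.val_finsetProd] at h
    exact h.symm

end Pool.Agent.AT
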